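import Mathlib

set_option autoImplicit false

namespace Pool.Agent.H.MP_683aef_lc

open FirstOrder FirstOrder.Language Set

def Lg : FirstOrder.Language.{0, 0} := ⟨fun _ => Empty, fun n => {_x : Bool × ℕ // n = 2}⟩

abbrev Rl (M : Type) := Bool → ℕ → M → M → Prop

def rel (M : Type) [Lg.Structure M] : Rl M := fun b n x y =>
  Structure.RelMap (L := Lg) (n := 2) ⟨(b, n), rfl⟩ ![x, y]

@[reducible] def str {M : Type} (S : Rl M) : Lg.Structure M :=
  ⟨fun f => f.elim, fun r v => S r.1.1 r.1.2 (v ⟨0, by have := r.2; omega⟩)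
    (v ⟨1, by have := r.2; omega⟩)⟩

theorem rm {M : Type} [Lg.Structure M] (b : Bool) (n : ℕ) (v : Fin 2 → M) :
    Structure.RelMap (L := Lg) (n := 2) ⟨(b, n), rfl⟩ v ↔ rel M b n (v 0) (v 1) :=
  iff_of_eq (congrArg _ (by ext i; fin_cases i <;> rfl))

structure Base {M : Type} (S : Rl M) : Prop where
  irr : ∀ b x, ¬S b 0 x x
  tr : ∀ b x y z, S b 0 x y → S b 0 y z → S b 0 x z
  dg : ∀ b n x y, S b (n + 1) x y → x = y
  up : ∀ b n x y, S b 0 x y → S b (n + 1) x x → S b (n + 1) y y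
  dn : ∀ b n m x, n ≤ m → S b (m + 1) x x → S b (n + 1) x x

def PI {M N : Type} (K : ℕ) (S : Rl M) (S' : Rl N) (t : Set (M × N)) : Prop :=
  ∀ p ∈ t, ∀ q ∈ t, (p.1 = q.1 ↔ p.2 = q.2) ∧ ∀ b, ∀ n ≤ K, (S b n p.1 q.1 ↔ S' b n p.2 q.2)

def Gen {N : Type} (S' : Rl N) : Prop := Base S' ∧ ∀ (M : Type) (S : Rl M), Base S →
  ∀ K t, t.Finite → PI K S S' t → ∀ x, ∃ y, PI K S S' (insert (x, y) t)

theorem PI.swap {M N : Type} {K : ℕ} {S : Rl M} {S' : Rl N} {t : Set (M × N)} (h : PI K S S' t) :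
    PI K S' S (Prod.swap ⁻¹' t) := fun _ a _ b =>
  (h _ a _ b).imp .symm fun k b n l => (k b n l).symm

theorem pres {α : Type} {n : ℕ} (φ : Lg.BoundedFormula α n) : ∃ K : ℕ, ∀ K' ≥ K, ∀ (M N : Type)
    [Lg.Structure M] [Lg.Structure N], Gen (rel M) → Gen (rel N) → ∀ t : Set (M × N), t.Finite →
    PI K' (rel M) (rel N) t → ∀ v v' xs xs', (∀ i, (v i, v' i) ∈ t) → (∀ i, (xs i, xs' i) ∈ t) →
      (φ.Realize v xs ↔ φ.Realize v' xs') := by
  have tm : ∀ {n : ℕ} {M N : Type} [Lg.Structure M] [Lg.Structure N] {t : Set (M × N)}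
      {v : α → M} {v' : α → N} {xs : Fin n → M} {xs' : Fin n → N}, (∀ i, (v i, v' i) ∈ t) →
      (∀ i, (xs i, xs' i) ∈ t) → ∀ τ : Lg.Term (α ⊕ Fin n),
        (τ.realize (Sum.elim v xs), τ.realize (Sum.elim v' xs')) ∈ t := by
    rintro n M N _ _ t v v' xs xs' h1 h2 ((i | i) | f)
    exacts [h1 i, h2 i, f.elim]
  induction φ with
  | falsum => exact ⟨0, fun _ _ _ _ _ _ _ _ _ _ _ _ _ _ _ _ _ => .rfl⟩
  | equal a b => exact ⟨0, fun _ _ _ _ _ _ _ _ _ _ h _ _ _ _ h1 h2 =>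
      (h _ (tm h1 h2 a) _ (tm h1 h2 b)).1⟩
  | rel R ts =>
    obtain ⟨⟨b, k⟩, rfl⟩ := R
    refine ⟨k, fun _ l _ _ _ _ _ _ _ _ h _ _ _ _ h1 h2 => ?_⟩
    have := (h _ (tm h1 h2 (ts 0)) _ (tm h1 h2 (ts 1))).2 b k l
    exact (rm _ _ _).trans (Iff.trans (rm _ _ _) this.symm).symm
  | imp _ _ i1 i2 =>
    obtain ⟨K1, i1⟩ := i1
    obtain ⟨K2, i2⟩ := i2
    exact ⟨max K1 K2, fun K l M N _ _ a b t c d _ _ _ _ h1 h2 => imp_congr
      (i1 K (le_of_max_le_left l) M N a b t c d _ _ _ _ h1 h2)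
      (i2 K (le_of_max_le_right l) M N a b t c d _ _ _ _ h1 h2)⟩
  | all _ ih =>
    obtain ⟨K, ih⟩ := ih
    refine ⟨K, fun K l M N _ _ a b t c d v v' xs xs' h1 h2 => ?_⟩
    have k : ∀ x y, PI _ (rel M) (rel N) (insert (x, y) t) → _ := fun x y h =>
      ih K l M N a b _ (c.insert _) h v v' (Fin.snoc xs x) (Fin.snoc xs' y) (fun i => .inr (h1 i))
        (Fin.lastCases (by simp) fun i => by simp [h2])
    simp only [BoundedFormula.realize_all]
    refine ⟨fun h y => ?_, fun h x => ?_⟩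
    · obtain ⟨x, e⟩ := a.2 N _ b.1 K _ (c.preimage Prod.swap_injective.injOn) d.swap y
      refine (k x y fun p p' q q' => e.swap p ?_ q ?_).1 (h x)
      exacts [p'.imp (congrArg _) id, q'.imp (congrArg _) id]
    · obtain ⟨y, e⟩ := b.2 M _ a.1 K t c d x
      exact (k x y e).2 (h y)

theorem dia {M β γ : Type} [Finite β] (K : ℕ) (S : Rl M) (v : β → M) (f : β → γ) :
    ∃ θ : Lg.Formula γ, ∀ (N : Type) [Lg.Structure N] (w : γ → N),
      θ.Realize w ↔ PI K S (rel N) (range fun i => (v i, w (f i))) := by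
  classical
  have lit : ∀ (p : Prop) (φ : Lg.Formula γ), ∃ ψ : Lg.Formula γ, ∀ (N : Type) [Lg.Structure N]
      (w : γ → N), ψ.Realize w ↔ (p ↔ φ.Realize w) := fun p φ => by
    by_cases h : p
    exacts [⟨φ, by simp [h]⟩, ⟨φ.not, by simp [h]⟩]
  choose l hl using lit
  refine ⟨Formula.iInf fun q : β × β =>
    l (v q.1 = v q.2) ((Term.var (f q.1)).equal (.var (f q.2))) ⊓
      Formula.iInf fun s : Bool × Fin (K + 1) => l (S s.1 s.2 (v q.1) (v q.2))
        (Relations.formula₂ (L := Lg) ⟨(s.1, s.2), rfl⟩ (.var (f q.1)) (.var (f q.2))),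
    fun N _ w => ?_⟩
  simp only [Formula.realize_iInf, Formula.realize_inf, hl, Formula.realize_equal,
    Term.realize_var, PI, forall_mem_range, Prod.forall]
  exact forall₂_congr fun i j => and_congr_right fun _ => forall_congr' fun b =>
    ⟨fun h n l => (h ⟨n, by omega⟩).trans Formula.realize_rel₂,
      fun h n => (Formula.realize_rel₂.trans (h n (by omega)).symm).symm⟩

theorem tran {M N : Type} [Lg.Structure M] [Lg.Structure N] (e : M ≅[Lg] N) (h : Gen (rel M)) :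
    Gen (rel N) := by
  have k : ∀ K (v : Fin 3 → N), ∃ w : Fin 3 → M, ∀ i j, (v i = v j ↔ w i = w j) ∧
      ∀ b, ∀ n ≤ K, (rel N b n (v i) (v j) ↔ rel M b n (w i) (w j)) := fun K v => by
    obtain ⟨θ, a⟩ := dia K (rel N) v (Sum.inr : _ → Empty ⊕ _)
    obtain ⟨w, b⟩ := Formula.realize_iExs.1 ((e.realize_sentence (θ.iExs _)).2
      (Formula.realize_iExs.2 ⟨v, (a _ _).2 (by rintro _ ⟨i, rfl⟩ _ ⟨j, rfl⟩; simp)⟩))
    exact ⟨w, fun i j => (a _ _).1 b _ ⟨i, rfl⟩ _ ⟨j, rfl⟩⟩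
  refine ⟨⟨fun b x a => ?_, fun b x y z a c => ?_, fun b n x y a => ?_, fun b n x y a c => ?_,
    fun b n m x l a => ?_⟩, fun P S B K t f p x => ?_⟩
  · obtain ⟨w, k⟩ := k 0 ![x, x, x]
    exact h.1.irr b _ (((k 0 0).2 b 0 le_rfl).1 a)
  · obtain ⟨w, k⟩ := k 0 ![x, y, z]
    exact ((k 0 2).2 b 0 le_rfl).2 (h.1.tr b _ _ _ (((k 0 1).2 b 0 le_rfl).1 a)
      (((k 1 2).2 b 0 le_rfl).1 c))
  · obtain ⟨w, k⟩ := k (n + 1) ![x, y, y]
    exact (k 0 1).1.2 (h.1.dg b n _ _ (((k 0 1).2 b _ le_rfl).1 a))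
  · obtain ⟨w, k⟩ := k (n + 1) ![x, y, y]
    exact ((k 1 1).2 b _ le_rfl).2 (h.1.up b n _ _ (((k 0 1).2 b 0 (by omega)).1 a)
      (((k 0 0).2 b _ le_rfl).1 c))
  · obtain ⟨w, k⟩ := k (m + 1) ![x, x, x]
    exact ((k 0 0).2 b _ (by omega)).2 (h.1.dn b n m _ l (((k 0 0).2 b _ le_rfl).1 a))
  have := f.to_subtype
  obtain ⟨θ, a⟩ := dia K S (fun i : t => i.1.1) (Sum.inr : _ → Empty ⊕ _)
  obtain ⟨ψ, c⟩ := dia K S (Sum.elim (fun i : t => i.1.1) fun _ : Unit => x)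
    (Sum.map Sum.inr id : _ → (Empty ⊕ _) ⊕ _)
  have r : ∀ {Q : Type} (u : Empty → Q) (w : t → Q) (y : Unit → Q), (range fun i : t ⊕ Unit =>
      (Sum.elim (fun i : t => i.1.1) (fun _ : Unit => x) i,
        Sum.elim (Sum.elim u w) y (Sum.map Sum.inr id i))) =
      insert (x, y ()) (range fun i : t => (i.1.1, w i)) := fun u w y => by
    ext p
    simp only [mem_range, Sum.exists, mem_insert_iff]
    exact or_comm.trans (or_congr_left ⟨fun ⟨_, h⟩ => h.symm, fun h => ⟨(), h.symm⟩⟩)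
  have := Formula.realize_iAlls.1 ((e.realize_sentence (Formula.iAlls _ (θ ⟹ ψ.iExs _))).1
    (Formula.realize_iAlls.2 fun w => Formula.realize_imp.2 fun q => by
      obtain ⟨y, q⟩ := h.2 P S B K _ (finite_range _) ((a _ _).1 q) x
      exact Formula.realize_iExs.2 ⟨fun _ => y, (c _ _).2
        ((congrArg _ (r _ w fun _ => y)).mpr q)⟩)) fun i => i.1.2
  have r2 : (range fun i : t => (i.1.1, i.1.2)) = t := Subtype.range_coe
  obtain ⟨y, q⟩ := Formula.realize_iExs.1 (Formula.realize_imp.1 this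
    ((a _ _).2 ((congrArg _ r2).mpr p)))
  exact ⟨y (), r2 ▸ (congrArg _ (r _ _ y)).mp ((c _ _).1 q)⟩

theorem emb {N N' : Type} [Countable N] [Nonempty N] [Nonempty N'] {S : Rl N} {S' : Rl N'}
    (B : Base S) (G : Gen S')
    (h : ∀ b, (∃ z, ∀ n, S b (n + 1) z z) → ∃ z, ∀ n, S' b (n + 1) z z) :
    ∃ f : N → N', ∀ K, PI K S S' (range fun z => (z, f z)) := by
  choose! u hu using h
  let T : Rl (N ⊕ N') := fun b n p q => match p, q with
    | .inl x, .inl y => S b n x y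
    | .inr x, .inr y => S' b n x y
    | .inr a, .inl z => n = 0 ∧ (∀ m, S b (m + 1) z z) ∧ (a = u b ∨ S' b 0 a (u b))
    | .inl _, .inr _ => False
  have BT : Base T := by
    refine ⟨?_, ?_, ?_, ?_, ?_⟩
    · rintro b (x | x)
      exacts [B.irr b x, G.1.irr b x]
    · rintro b (x | x) (y | y) (z | z) a c
      exacts [B.tr b _ _ _ a c, c.elim, a.elim, a.elim,
        ⟨rfl, fun m => B.up b m _ _ c (a.2.1 m), a.2.2⟩, c.elim,
        ⟨rfl, c.2.1, .inr (c.2.2.elim (· ▸ a) (G.1.tr b _ _ _ a))⟩, G.1.tr b _ _ _ a c]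
    · rintro b n (x | x) (y | y) a
      exacts [congrArg _ (B.dg b n _ _ a), a.elim, absurd a.1 (by simp),
        congrArg _ (G.1.dg b n _ _ a)]
    · rintro b n (x | x) (y | y) a c
      exacts [B.up b n _ _ a c, a.elim, a.2.1 n, G.1.up b n _ _ a c]
    · rintro b n m (x | x)
      exacts [B.dn b n m x, G.1.dn b n m x]
  let X := {t : Set ((N ⊕ N') × N') // t.Finite ∧ (∀ K, PI K T S' t) ∧ ∀ b, (.inr (u b), u b) ∈ t}
  have step : ∀ (t : X) (z : N), ∃ (y : N') (t' : X), t'.1 = insert (.inl z, y) t.1 := by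
    rintro ⟨t, t1, t2, t3⟩ z
    have : ∀ b, ∃ m, (∀ n, S b (n + 1) z z) ∨ ¬S b (m + 1) z z := fun b => by
      by_cases k : ∀ n, S b (n + 1) z z
      exacts [⟨0, .inl k⟩, (not_forall.1 k).imp fun _ => .inr]
    choose m hm using this
    obtain ⟨y, a⟩ := G.2 _ T BT (m true + m false + 1) t t1 (t2 _) (.inl z)
    have d : ∀ p ∈ insert (Sum.inl z, y) t, ∀ b n, T b (n + 1) p.1 p.1 ↔ S' b (n + 1) p.2 p.2 := by
      rintro p (rfl | c) b n
      · rcases hm b with k | k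
        · exact iff_of_true (k n) (G.1.up b n _ _ (((a _ (.inr (t3 b)) _ (.inl rfl)).2 b 0
            (by omega)).1 ⟨rfl, k, .inl rfl⟩) (hu b ⟨z, k⟩ n))
        have l : m b + 1 ≤ m true + m false + 1 := by cases b <;> omega
        rcases le_total n (m b) with l' | l'
        · exact (a _ (.inl rfl) _ (.inl rfl)).2 b _ (by omega)
        · exact iff_of_false (mt (B.dn b _ _ z l') k) (mt (fun c =>
            ((a _ (.inl rfl) _ (.inl rfl)).2 b _ l).2 (G.1.dn b _ _ y l' c)) k)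
      · exact (t2 _ p c p c).2 b _ le_rfl
    refine ⟨y, ⟨_, t1.insert _, fun K p c q e => ⟨(a p c q e).1, fun b n _ => ?_⟩,
      fun b => .inr (t3 b)⟩, rfl⟩
    cases n with
    | zero => exact (a p c q e).2 b 0 (by omega)
    | succ n =>
      refine ⟨fun k => ?_, fun k => ?_⟩
      · have := BT.dg b n _ _ k
        exact (a p c q e).1.1 this ▸ (d p c b n).1 (this ▸ this ▸ k)
      · have := G.1.dg b n _ _ k
        exact (a p c q e).1.2 this ▸ (d p c b n).2 (this ▸ this ▸ k)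
  choose y st hs using step
  obtain ⟨e, he⟩ := exists_surjective_nat N
  let s : ℕ → X := fun n => Nat.rec ⟨range fun b => (.inr (u b), u b), finite_range _,
    fun K => by rintro _ ⟨i, rfl⟩ _ ⟨j, rfl⟩; simp [T], fun b => ⟨b, rfl⟩⟩ (fun n t => st t (e n)) n
  have mo : Monotone fun n => (s n).1 := monotone_nat_of_le_succ fun n =>
    (subset_insert _ _).trans (hs (s n) (e n)).ge
  choose g hg using he
  have k : ∀ z m, g z < m → (.inl z, y (s (g z)) z) ∈ (s m).1 := fun z m l =>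
    mo l ((hs (s (g z)) (e (g z))).ge (.inl (by rw [hg])))
  refine ⟨fun z => y (s (g z)) z, fun K => ?_⟩
  rintro _ ⟨z, rfl⟩ _ ⟨w, rfl⟩
  have := (s (g z + g w + 1)).2.2.1 K _ (k z (g z + g w + 1) (by omega)) _
    (k w (g z + g w + 1) (by omega))
  exact this.imp_left fun h => Sum.inl_injective.eq_iff.symm.trans h

end Pool.Agent.H.MP_683aef_lc
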