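import Pool.Agent.H.MP_683aef_lc.A

set_option autoImplicit false

namespace Pool.Agent.H.MP_683aef_lc

open Set

def In (z : Prop) (R : ℕ → ℕ → Prop) (y : ℕ) : Prop := z ∧ ∃ a, a % 2 = 0 ∧ (a = y ∨ R a y)

theorem ord (C : ℕ → ℕ → Prop) (z : Prop) (D U : ℕ → Set ℕ) (r : ℕ → ℕ) (c1 : ∀ x, ¬C x x)
    (c2 : ∀ x y w, C x y → C y w → C x w) (c3 : ∀ x y, C x y → x % 2 = 0 ∧ y % 2 = 0 ∧ r x ≤ r y) :
    ∃ lt : ℕ → ℕ → Prop, (∀ x, ¬lt x x) ∧ (∀ x y w, lt x y → lt y w → lt x w) ∧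
      (∀ x y, x % 2 = 0 → y % 2 = 0 → (lt x y ↔ C x y)) ∧
      (∀ x y, lt x y → In z lt y ∨ r x ≤ r y) ∧
      ∀ n, n % 2 ≠ 0 → (∀ d ∈ D n, d < n) → (∀ u ∈ U n, u < n) → (∀ d ∈ D n, ∀ u ∈ U n, lt d u) →
        (∀ d ∈ D n, (∃ d' ∈ D n, In z lt d') ∨ r d ≤ r n) → (∀ u ∈ U n, In z lt u ∨ r n ≤ r u) →
        ∀ x, x < n ∨ x % 2 = 0 → (lt x n ↔ ∃ d ∈ D n, x = d ∨ lt x d) ∧
          (lt n x ↔ ∃ u ∈ U n, x = u ∨ lt u x) := by
  classical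
  let Gd : ℕ → (ℕ → ℕ → Prop) → Prop := fun n R => (∀ x, ¬R x x) ∧
    (∀ x y w, R x y → R y w → R x w) ∧
    (∀ x y, R x y → (x < n ∨ x % 2 = 0) ∧ (y < n ∨ y % 2 = 0)) ∧
    ∀ x y, R x y → In z R y ∨ r x ≤ r y
  let ex : ℕ → (ℕ → ℕ → Prop) → ℕ → ℕ → Prop := fun n R x y => R x y ∨
    (y = n ∧ ∃ d ∈ D n, x = d ∨ R x d) ∨ (x = n ∧ ∃ u ∈ U n, y = u ∨ R u y)
  obtain ⟨L, e0, e⟩ : ∃ L : ℕ → ℕ → ℕ → Prop, L 0 = C ∧ ∀ n : ℕ, L (n + 1) =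
      @ite _ (n % 2 ≠ 0 ∧ Gd (n + 1) (ex n (L n))) (Classical.dec _) (ex n (L n)) (L n) :=
    ⟨fun n => Nat.rec C (fun n R => @ite _ (n % 2 ≠ 0 ∧ Gd (n + 1) (ex n R)) (Classical.dec _)
      (ex n R) R) n, rfl, fun _ => rfl⟩
  subst e0
  have g : ∀ n, Gd n (L n) := fun n => by
    induction n with
    | zero => exact ⟨c1, c2, fun x y h => ⟨.inr (c3 x y h).1, .inr (c3 x y h).2.1⟩,
        fun x y h => .inr (c3 x y h).2.2⟩
    | succ n ih =>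
      rw [e]
      split_ifs with h
      exacts [h.2, ⟨ih.1, ih.2.1, fun x y h => by have := ih.2.2.1 x y h; omega, ih.2.2.2⟩]
  have mo : ∀ m n, m ≤ n → ∀ x y, (L m x y → L n x y) ∧
      (x < m ∨ x % 2 = 0 → y < m ∨ y % 2 = 0 → L n x y → L m x y) := fun m n l x y => by
    induction n, l using Nat.le_induction with
    | base => exact ⟨id, fun _ _ => id⟩
    | succ n l ih =>
      rw [e]
      split_ifs with h
      · exact ⟨fun k => .inl (ih.1 k), fun a b k => k.elim (ih.2 a b) fun k => by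
          have := h.1
          rcases k with k | k <;> have := k.1 <;> omega⟩
      · exact ih
  have st : ∀ n x y, x < n ∨ x % 2 = 0 → y < n ∨ y % 2 = 0 → ((∃ m, L m x y) ↔ L n x y) :=
    fun n x y a b => ⟨fun ⟨m, h⟩ => (le_total m n).elim (fun l => (mo m n l x y).1 h)
      fun l => (mo n m l x y).2 a b h, fun h => ⟨n, h⟩⟩
  have si : ∀ n y, y < n → (In z (fun x y => ∃ m, L m x y) y ↔ In z (L n) y) := fun n y l =>
    and_congr_right fun _ => exists_congr fun a => and_congr_right fun h =>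
      or_congr_right (st n a y (.inr h) (.inl l))
  refine ⟨fun x y => ∃ m, L m x y, fun x ⟨m, h⟩ => (g m).1 x h, fun x y w ⟨m, h⟩ ⟨n, k⟩ =>
    ⟨max m n, (g _).2.1 x y w ((mo _ _ (le_max_left _ _) _ _).1 h)
      ((mo _ _ (le_max_right _ _) _ _).1 k)⟩, fun x y a b => st 0 x y (.inr a) (.inr b),
    fun x y ⟨m, h⟩ => ((g m).2.2.2 x y h).imp_left fun ⟨a, b, c, d⟩ =>
      ⟨a, b, c, d.imp_right fun h => ⟨m, h⟩⟩, fun n o h1 h2 h3 h4 h5 x hx => ?_⟩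
  obtain ⟨g1, g2, g3, g4⟩ := g n
  have n1 : ∀ x, ¬L n x n := fun x h => by have := (g3 x n h).2; omega
  have n2 : ∀ x, ¬L n n x := fun x h => by have := (g3 n x h).1; omega
  have b1 : ∀ x, (∃ d ∈ D n, x = d ∨ L n x d) → x < n ∨ x % 2 = 0 := fun x ⟨d, a, b⟩ =>
    b.elim (fun b => .inl (b ▸ h1 d a)) fun b => (g3 _ _ b).1
  have b2 : ∀ x, (∃ d ∈ U n, x = d ∨ L n d x) → x < n ∨ x % 2 = 0 := fun x ⟨d, a, b⟩ =>
    b.elim (fun b => .inl (b ▸ h2 d a)) fun b => (g3 _ _ b).2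
  have b3 : ∀ x y, (∃ d ∈ D n, x = d ∨ L n x d) → (∃ d ∈ U n, y = d ∨ L n d y) → L n x y :=
    fun x y ⟨d, a, b⟩ ⟨u, a', b'⟩ => by
      have k := (st n d u (.inl (h1 d a)) (.inl (h2 u a'))).1 (h3 d a u a')
      have k' : L n x u := b.elim (· ▸ k) (g2 _ _ _ · k)
      exact b'.elim (· ▸ k') (g2 _ _ _ k')
  have i1 : ∀ y, In z (L n) y → In z (ex n (L n)) y := fun y ⟨a, b, c, d⟩ =>
    ⟨a, b, c, d.imp_right .inl⟩
  have i2 : ∀ d ∈ D n, In z (L n) d → In z (ex n (L n)) n := fun d h ⟨a, b, c, k⟩ =>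
    ⟨a, b, c, .inr (.inr (.inl ⟨rfl, d, h, k⟩))⟩
  have : Gd (n + 1) (ex n (L n)) := by
    refine ⟨?_, ?_, ?_, ?_⟩
    · rintro x (h | ⟨rfl, h⟩ | ⟨rfl, h⟩)
      exacts [g1 x h, by have := b1 _ h; omega, by have := b2 _ h; omega]
    · rintro x y w (h | ⟨rfl, h⟩ | ⟨rfl, h⟩) (k | ⟨e, k⟩ | ⟨e, k⟩)
      · exact .inl (g2 _ _ _ h k)
      · obtain ⟨d, a, b⟩ := k
        exact .inr (.inl ⟨e, d, a, .inr (b.elim (· ▸ h) (g2 _ _ _ h))⟩)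
      · exact (n1 x (e ▸ h)).elim
      · exact (n2 w k).elim
      · have := b1 _ k
        omega
      · exact .inl (b3 _ _ h k)
      · obtain ⟨d, a, b⟩ := h
        exact .inr (.inr ⟨rfl, d, a, .inr (b.elim (· ▸ k) (g2 _ _ _ · k))⟩)
      · exact (g1 y (b3 _ _ k h)).elim
      · have := b2 _ h
        omega
    · rintro x y (h | ⟨rfl, h⟩ | ⟨rfl, h⟩)
      exacts [by have := g3 x y h; omega, by have := b1 _ h; omega, by have := b2 _ h; omega]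
    · rintro x y (h | ⟨rfl, d, a, h⟩ | ⟨rfl, u, a, h⟩)
      · exact (g4 x y h).imp_left (i1 y)
      · rcases h4 d a with ⟨d', k1, k2⟩ | k
        · exact .inl (i2 d' k1 ((si _ _ (h1 d' k1)).1 k2))
        · exact h.elim (fun h => .inr (h ▸ k)) fun h => (g4 x d h).imp (i2 d a) (·.trans k)
      · rcases h5 u a with k | k
        · obtain ⟨k1, c, k2, k3⟩ := (si _ _ (h2 u a)).1 k
          exact .inl (i1 y ⟨k1, c, k2, h.elim (· ▸ k3) fun h =>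
            .inr (k3.elim (· ▸ h) (g2 _ _ _ · h))⟩)
        · exact h.elim (fun h => .inr (h ▸ k)) fun h => (g4 u y h).imp (i1 y) k.trans
  beta_reduce
  rw [st (n + 1) x n (by omega) (by omega), st (n + 1) n x (by omega) (by omega), e,
    if_pos ⟨o, this⟩]
  refine ⟨⟨?_, fun ⟨d, a, h⟩ => .inr (.inl ⟨rfl, d, a, h.imp_right
    (st n x d hx (.inl (h1 d a))).1⟩)⟩, ?_, fun ⟨d, a, h⟩ => .inr (.inr ⟨rfl, d, a, h.imp_right
    (st n d x (.inl (h2 d a)) hx).1⟩)⟩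
  · rintro (h | ⟨-, d, a, h⟩ | ⟨h, -⟩)
    exacts [(n1 x h).elim, ⟨d, a, h.imp_right fun h => ⟨n, h⟩⟩, by omega]
  · rintro (h | ⟨h, -⟩ | ⟨-, d, a, h⟩)
    exacts [(n2 x h).elim, by omega, ⟨d, a, h.imp_right fun h => ⟨n, h⟩⟩]

theorem model (C : Bool → ℕ → ℕ → Prop) (z : Bool → Prop) (c1 : ∀ b x, ¬C b x x)
    (c2 : ∀ b x y w, C b x y → C b y w → C b x w) (c3 : ∀ b x y, C b x y → x % 2 = 0 ∧ y % 2 = 0) :
    ∃ S : Rl ℕ, Gen S ∧ (∀ b x y, x % 2 = 0 → y % 2 = 0 → (S b 0 x y ↔ C b x y)) ∧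
      ∀ b x, (∀ n, S b (n + 1) x x) ↔ In (z b) (S b 0) x := by
  classical
  obtain ⟨f, hf⟩ := exists_surjective_nat (Bool → Finset ℕ × Finset ℕ × ℕ)
  let r : Bool → ℕ → ℕ := fun b n => if n % 2 = 0 then 0 else (f (n / 2).unpair.2 b).2.2
  choose lt l1 l2 l3 l4 l5 using fun b => ord (C b) (z b) (fun n => (f (n / 2).unpair.2 b).1)
    (fun n => (f (n / 2).unpair.2 b).2.1) (r b) (c1 b) (c2 b) fun x y h =>
      ⟨(c3 b x y h).1, (c3 b x y h).2, by simp [r, (c3 b x y h).1]⟩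
  have iu : ∀ b x y, lt b x y → In (z b) (lt b) x → In (z b) (lt b) y := fun b x y h ⟨a, c, d, k⟩ =>
    ⟨a, c, d, .inr (k.elim (· ▸ h) (l2 b _ _ _ · h))⟩
  let S : Rl ℕ := fun b n x y => match n with
    | 0 => lt b x y
    | n + 1 => x = y ∧ (In (z b) (lt b) x ∨ n < r b x)
  have B : Base S := ⟨l1, l2, fun _ _ _ _ h => h.1, fun b n x y h k => ⟨rfl, k.2.elim
    (fun k => .inl (iu b x y h k)) fun k => (l4 b x y h).imp_right k.trans_le⟩,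
    fun b n m x l h => ⟨rfl, h.2.imp_right l.trans_lt⟩⟩
  refine ⟨S, ⟨B, fun M T BT K t ft p x => ?_⟩, l3, fun b x => ⟨fun h =>
    (h (r b x)).2.resolve_right (lt_irrefl _), fun h n => ⟨rfl, .inl h⟩⟩⟩
  by_cases o : ∃ y, (x, y) ∈ t
  · exact o.imp fun y h => by rwa [insert_eq_of_mem h]
  have fd : ∀ P : M → Prop, {y | ∃ w, (w, y) ∈ t ∧ P w}.Finite := fun P =>
    (ft.image Prod.snd).subset fun y ⟨w, a, _⟩ => ⟨_, a, rfl⟩
  have : ∀ b, ∃ ρ, ∀ n, n < ρ ↔ (∃ m, n ≤ m ∧ m < K ∧ T b (m + 1) x x) ∨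
      ∃ w y, (w, y) ∈ t ∧ T b 0 w x ∧ n < r b y := fun b => by
    obtain ⟨N, hN⟩ := (ft.image fun q => r b q.2).bddAbove
    have : ∃ n, ¬((∃ m, n ≤ m ∧ m < K ∧ T b (m + 1) x x) ∨
        ∃ w y, (w, y) ∈ t ∧ T b 0 w x ∧ n < r b y) := ⟨K + N, by
      rintro (⟨m, a, c, -⟩ | ⟨w, y, a, -, c⟩)
      · omega
      · have : r b y ≤ N := hN ⟨_, a, rfl⟩
        omega⟩
    refine ⟨Nat.find this, fun n => ⟨fun l => not_not.1 (Nat.find_min this l), fun h =>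
      not_le.1 fun l => Nat.find_spec this (h.imp (fun ⟨m, a, c⟩ => ⟨m, l.trans a, c⟩)
        fun ⟨w, y, a, c, d⟩ => ⟨w, y, a, c, l.trans_lt d⟩)⟩⟩
  choose ρ hρ using this
  obtain ⟨m, hm⟩ := hf fun b => ((fd (T b 0 · x)).toFinset, (fd (T b 0 x ·)).toFinset, ρ b)
  obtain ⟨N, hN⟩ := (ft.image Prod.snd).bddAbove
  obtain ⟨y, y1, y2, y3⟩ : ∃ y, y % 2 ≠ 0 ∧ N < y ∧ (y / 2).unpair.2 = m :=
    ⟨2 * N.pair m + 1, by omega, by have := Nat.left_le_pair N m; omega, by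
      rw [show (2 * N.pair m + 1) / 2 = N.pair m by omega, Nat.unpair_pair]⟩
  have y4 : ∀ {w v}, (w, v) ∈ t → v < y := fun h => (hN ⟨_, h, rfl⟩).trans_lt y2
  have y5 : ∀ b, r b y = ρ b := fun b => by simp [r, y1, y3, hm]
  have p0 : ∀ {b w v w' v'}, (w, v) ∈ t → (w', v') ∈ t → (T b 0 w w' ↔ lt b v v') :=
    fun a c => (p _ a _ c).2 _ 0 K.zero_le
  have key := fun b => l5 b y y1
  simp only [y3, hm, Finite.coe_toFinset, mem_ofPred_eq, y5] at key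
  replace key := fun b => key b (fun d ⟨_, h, _⟩ => y4 h) (fun d ⟨_, h, _⟩ => y4 h)
    (fun d ⟨_, h, k⟩ u ⟨_, h', k'⟩ => (p0 h h').1 (BT.tr b _ _ _ k k'))
    (fun d ⟨w, h, k⟩ => .inr (not_lt.1 fun l => lt_irrefl _ ((hρ b _).2 (.inr ⟨w, d, h, k, l⟩))))
    (fun u ⟨w, h, k⟩ => or_iff_not_imp_left.2 fun ni => not_lt.1 fun l => by
      rcases (hρ b _).1 l with ⟨n, a, c, d⟩ | ⟨w', v, a, c, d⟩
      · have := (((p _ h _ h).2 b _ c).1 (BT.up b n _ _ k d)).2.resolve_left ni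
        exact this.not_ge a
      · exact ((l4 b v u ((p0 a h).1 (BT.tr b _ _ _ c k))).resolve_left ni).not_gt d)
  have k1 : ∀ {b w v}, (w, v) ∈ t → (T b 0 w x ↔ lt b v y) ∧ (T b 0 x w ↔ lt b y v) :=
    fun {b w v} h => by
      rw [(key b v (.inl (y4 h))).1, (key b v (.inl (y4 h))).2]
      refine ⟨⟨fun k => ⟨v, ⟨w, h, k⟩, .inl rfl⟩, fun ⟨d, ⟨w', a, c⟩, k⟩ => ?_⟩,
        fun k => ⟨v, ⟨w, h, k⟩, .inl rfl⟩, fun ⟨d, ⟨w', a, c⟩, k⟩ => ?_⟩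
      exacts [k.elim (fun k => (show w = w' from (p _ h _ a).1.2 k) ▸ c) fun k => BT.tr b _ _ _ ((p0 h a).2 k) c,
        k.elim (fun k => (show w = w' from (p _ h _ a).1.2 k) ▸ c) fun k => BT.tr b _ _ _ c ((p0 a h).2 k)]
  have k2 : ∀ {w v}, (w, v) ∈ t → w ≠ x ∧ v ≠ y := fun h =>
    ⟨fun e => o ⟨_, e ▸ h⟩, (y4 h).ne⟩
  refine ⟨y, ?_⟩
  rintro ⟨w, v⟩ (e | a) ⟨w', v'⟩ (e' | c)
  · cases e
    cases e'
    refine ⟨by simp, fun b n l => ?_⟩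
    cases n with
    | zero => exact iff_of_false (BT.irr b x) (l1 b y)
    | succ n =>
      have k3 : ∀ w v, (w, v) ∈ t → T b 0 w x → In (z b) (lt b) v ∨ n < r b v →
          T b (n + 1) x x := fun w v a c d =>
        BT.up b n _ _ c (((p _ a _ a).2 b _ l).2 ⟨rfl, d⟩)
      refine ⟨fun h => ⟨rfl, .inr (y5 b ▸ (hρ b n).2 (.inl ⟨n, le_rfl, l, h⟩))⟩, fun h => ?_⟩
      rcases h.2 with ⟨h1, a, h2, h3⟩ | h
      · obtain ⟨d, ⟨w, d1, d2⟩, d3⟩ := (key b a (.inr h2)).1.1 (h3.resolve_left (by omega))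
        exact k3 w d d1 d2 (.inl ⟨h1, a, h2, d3⟩)
      · rcases (hρ b n).1 (y5 b ▸ h) with ⟨m, a, -, d⟩ | ⟨w, v, a, c, d⟩
        exacts [BT.dn b _ _ x a d, k3 w v a c (.inr d)]
  · cases e
    refine ⟨iff_of_false (k2 c).1.symm (k2 c).2.symm, fun b n l => ?_⟩
    cases n with
    | zero => exact (k1 c).2
    | succ n => exact iff_of_false (mt (BT.dg b n _ _) (k2 c).1.symm) fun h => (k2 c).2 h.1.symm
  · cases e'
    refine ⟨iff_of_false (k2 a).1 (k2 a).2, fun b n l => ?_⟩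
    cases n with
    | zero => exact (k1 a).1
    | succ n => exact iff_of_false (mt (BT.dg b n _ _) (k2 a).1) fun h => (k2 a).2 h.1
  · exact p _ a _ c

end Pool.Agent.H.MP_683aef_lc
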